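import Pool.Agent.helper80.SV.Spec

/-!
Project sv, module ZER: if `cc a b = 0` then nothing is visible on a kernel of minimal dimension.
-/

set_option autoImplicit false

namespace Pool.Agent.SV

open MvPolynomial Module

theorem ZER : ZER_stmt := by
  intro E P J _ _ _ _ _ _ Φ V hV a b x y hcc hdim f hf hVf
  obtain ⟨p, hp⟩ := hV f hVf
  set y' : Fin (b + 1) → P := Fin.snoc y p with hy'
  have hle : Ker Φ x y' ≤ Ker Φ x y := by
    intro v hv
    rw [mem_Ker] at hv ⊢
    refine ⟨hv.1, fun i => ?_⟩
    have h1 := hv.2 i.castSucc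
    rw [hy', Fin.snoc_castSucc] at h1
    exact h1
  have hne : Ker Φ x y' ≠ Ker Φ x y := by
    intro h
    rw [← h, mem_Ker] at hf
    have h1 := hf.2 (Fin.last b)
    rw [hy', Fin.snoc_last] at h1
    exact hp h1
  have hlt := Submodule.finrank_lt_finrank_of_lt (lt_of_le_of_ne hle hne)
  have h1 := dmin_le Φ x y'
  unfold cc at hcc
  omega

end Pool.Agent.SV
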